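import Pool.Agent.Lib.MP_fb3619_al.Base3

/-!
# ACTA: the rotation matrix of `t ∈ M_a` acts on the coordinate vectors as conjugation
-/

universe u

namespace Pool.Agent.FourGp.H18

open Equiv

section alg

variable {X Y Z : Type u} [AddCommGroup X] [AddCommGroup Y] [AddCommGroup Z] {T : Tri X Y Z}
  {R : Type u} [CommRing R] (D : RD T R)

theorem memC {t : T.MX} {w : R} (hw : w ∈ D.R0) : (1 - D.jx t * D.jx t) * w ∈ D.R0 :=
  D.R0.mul_mem (D.R0.sub_mem D.R0.one_mem (D.xx t t)) hw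

/-- The coordinates of a rotated point are in the `M`s and are given by the rotation formula. -/
theorem coordM {t : T.MX} {w : R} (hw : w ∈ D.R0) (hw1 : w * (1 + D.jx t * D.jx t) = 1)
    (hU : T.UniX t.1) (γ : T.MZ) (β : T.MY) (γ' : Z) (β' : Y)
    (e1 : γ' + T.xy t.1 β' = γ.1 - T.xy t.1 β.1) (e2 : β' - T.zx γ' t.1 = β.1 + T.zx γ.1 t.1) :
    ∃ γ₀ : T.MZ, ∃ β₀ : T.MY, γ' = γ₀.1 ∧ β' = β₀.1 ∧
      D.jz γ₀ = (1 - D.jx t * D.jx t) * w * D.jz γ - 2 * D.jx t * w * D.jy β ∧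
      D.jy β₀ = 2 * D.jx t * w * D.jz γ + (1 - D.jx t * D.jx t) * w * D.jy β := by
  obtain ⟨g1, hg1⟩ := D.rz _ (memC D (t := t) hw) γ
  obtain ⟨g2, hg2⟩ := D.rz _ hw (T.pXY t β)
  obtain ⟨b1, hb1⟩ := D.ry _ (memC D (t := t) hw) β
  obtain ⟨b2, hb2⟩ := D.ry _ hw (T.pZX γ t)
  obtain ⟨γ₀, k1⟩ : ∃ γ₀ : T.MZ, D.jz γ₀ =
      (1 - D.jx t * D.jx t) * w * D.jz γ - 2 * D.jx t * w * D.jy β := by
    refine ⟨g1 - (g2 + g2), ?_⟩
    rw [map_sub, map_add, ← hg1, ← hg2, ← D.xy]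
    ring
  obtain ⟨β₀, k2⟩ : ∃ β₀ : T.MY, D.jy β₀ =
      2 * D.jx t * w * D.jz γ + (1 - D.jx t * D.jx t) * w * D.jy β := by
    refine ⟨b1 + (b2 + b2), ?_⟩
    rw [map_add, map_add, ← hb1, ← hb2, ← D.zx]
    ring
  refine ⟨γ₀, β₀, ?_, ?_, k1, k2⟩
  all_goals
    have l1 : γ₀ + T.pXY t β₀ = γ - T.pXY t β := by
      apply D.jzi
      rw [map_add, map_sub, ← D.xy, ← D.xy, k1, k2]
      linear_combination (D.jz γ - D.jx t * D.jy β) * hw1
    have l2 : β₀ - T.pZX γ₀ t = β + T.pZX γ t := by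
      apply D.jyi
      rw [map_sub, map_add, ← D.zx, ← D.zx, k1, k2]
      linear_combination (D.jy β + D.jx t * D.jz γ) * hw1
    have m1 : γ₀.1 + T.xy t.1 β₀.1 = γ.1 - T.xy t.1 β.1 := congrArg Subtype.val l1
    have m2 : β₀.1 - T.zx γ₀.1 t.1 = β.1 + T.zx γ.1 t.1 := congrArg Subtype.val l2
    have n1 : γ' - γ₀.1 = -T.xy t.1 (β' - β₀.1) := by
      have := e1.trans m1.symm
      rw [map_sub, neg_sub, sub_eq_sub_iff_add_eq_add, this, add_comm]
    have n2 : β' - β₀.1 = T.zx (γ' - γ₀.1) t.1 := by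
      have := sub_eq_sub_iff_add_eq_add.1 (e2.trans m2.symm)
      rw [map_sub, AddMonoidHom.sub_apply, sub_eq_sub_iff_add_eq_add, this, add_comm]
    have n3 : (β' - β₀.1) + T.zx (T.xy t.1 (β' - β₀.1)) t.1 = 0 := by
      nth_rewrite 1 [n2]
      rw [n1, map_neg, AddMonoidHom.neg_apply]
      abel
    have n4 : β' - β₀.1 = 0 := hU.1.1 (by
      change (β' - β₀.1) + T.zx (T.xy t.1 (β' - β₀.1)) t.1 = 0 + T.zx (T.xy t.1 0) t.1
      rw [n3]; simp)
  · rw [n4, map_zero, neg_zero] at n1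
    exact sub_eq_zero.1 n1
  · exact sub_eq_zero.1 n4

theorem CCSS {t : T.MX} {w : R} (hw1 : w * (1 + D.jx t * D.jx t) = 1) :
    ((1 - D.jx t * D.jx t) * w) * ((1 - D.jx t * D.jx t) * w) +
      (2 * D.jx t * w) * (2 * D.jx t * w) = 1 := by
  linear_combination (w * (1 + D.jx t * D.jx t) + 1) * hw1

/-- The unit. -/
theorem theUnit {C S q q' : R} (h1 : C * C + S * S = 1) (h2 : q' * (C - S * q) = S + C * q) :
    ∃ e : Rˣ, (e : R) = C - S * q ∧ (e : R) * (C + S * q') = 1 := by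
  have h3 : (C - S * q) * (C + S * q') = 1 := by linear_combination h1 + S * h2
  exact ⟨⟨C - S * q, C + S * q', h3, by rw [mul_comm]; exact h3⟩, rfl, h3⟩

theorem kap {t : T.MX} {w : R} (hw : w ∈ D.R0) (q q' : T.MX) : ∃ κ : T.MX,
    D.jx κ = D.jx q' * ((1 - D.jx t * D.jx t) * w - 2 * D.jx t * w * D.jx q) -
      (2 * D.jx t * w + (1 - D.jx t * D.jx t) * w * D.jx q) := by
  obtain ⟨x1, h1⟩ := D.rx _ (memC D (t := t) hw) q'
  obtain ⟨x2, h2⟩ := D.rx _ (memC D (t := t) hw) q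
  obtain ⟨x3, h3⟩ := D.rx _ (D.R0.mul_mem hw (D.xx q q')) t
  obtain ⟨x4, h4⟩ := D.rx _ hw t
  refine ⟨x1 - (x3 + x3) - ((x4 + x4) + x2), ?_⟩
  rw [map_sub, map_sub, map_add, map_add, map_add, ← h1, ← h2, ← h3, ← h4]
  ring

theorem kapB (hG : T.Good) {t : T.MX} {w : R} (hw : w ∈ D.R0) (q q' : T.MX)
    (H : ∀ β : T.MY, (D.jx q' * ((1 - D.jx t * D.jx t) * w - 2 * D.jx t * w * D.jx q) -
      (2 * D.jx t * w + (1 - D.jx t * D.jx t) * w * D.jx q)) * D.jy β = 0) :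
    D.jx q' * ((1 - D.jx t * D.jx t) * w - 2 * D.jx t * w * D.jx q) =
      (2 * D.jx t * w + (1 - D.jx t * D.jx t) * w * D.jx q) := by
  obtain ⟨κ, hκ⟩ := kap D (t := t) hw q q'
  have h0 : κ.1 = 0 := by
    apply hG.s.sxy
    intro y hy
    have h1 := H ⟨y, hy⟩
    rw [← hκ, D.xy, ← map_zero D.jz] at h1
    exact congrArg Subtype.val (D.jzi h1)
  have h1 : κ = 0 := Subtype.ext h0
  rw [h1, map_zero] at hκ
  exact sub_eq_zero.1 hκ.symm

theorem kapC (hG : T.Good) {t : T.MX} {w : R} (hw : w ∈ D.R0) (q q' : T.MX)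
    (H : ∀ γ : T.MZ, (D.jx q' * ((1 - D.jx t * D.jx t) * w - 2 * D.jx t * w * D.jx q) -
      (2 * D.jx t * w + (1 - D.jx t * D.jx t) * w * D.jx q)) * D.jz γ = 0) :
    D.jx q' * ((1 - D.jx t * D.jx t) * w - 2 * D.jx t * w * D.jx q) =
      (2 * D.jx t * w + (1 - D.jx t * D.jx t) * w * D.jx q) := by
  obtain ⟨κ, hκ⟩ := kap D (t := t) hw q q'
  have h0 : κ.1 = 0 := by
    apply hG.s.sxz
    intro z hz
    have h1 := H ⟨z, hz⟩
    rw [← hκ, mul_comm, D.zx, ← map_zero D.jy] at h1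
    exact congrArg Subtype.val (D.jyi h1)
  have h1 : κ = 0 := Subtype.ext h0
  rw [h1, map_zero] at hκ
  exact sub_eq_zero.1 hκ.symm

end alg

variable {G : Type u} [Group G] {H K : Subgroup G} {a b c : G}

theorem cj_col (h : Cfg H K a b c) (α : J h.rot) :
    (inc H K).Col (cjJ h.rot α, cjJ h.rot α) := part1_cjc G H K a b c h ⟨α.1, α.memH⟩

theorem cj_pa (h : Cfg H K a b c) (α : J h.rot) : cjJ h.rot α h.pa = h.pa := by
  apply Subtype.ext
  rw [cjJ_val]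
  change α.1⁻¹ * a * α.1 = a
  have := α.2.2
  rw [mul_assoc, ← this, ← mul_assoc, inv_mul_cancel, one_mul]

/-- A rotated point of type `a` has coordinates. -/
theorem cj_sim (hC : CoorS.{u}) (h : Cfg H K a b c) (α : J h.rot) {z : Pt H} {γ β}
    (hz : IsC h z γ β) : ∃ γ' β', IsC h (cjJ h.rot α z) γ' β' := by
  obtain ⟨c1, c2, c3, -⟩ := hC G H K a b c h
  have h1 := c3 _ _ _ hz
  have h2 := ((part1_eqv _ _ h.geo).2.2 _ (cj_col h α) _ _ h1).1
  change (inc H K).sim (cjJ h.rot α h.pa) (cjJ h.rot α z) at h2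
  rw [cj_pa] at h2
  exact c1 _ h2

theorem cj_perp (h : Cfg H K a b c) (α : J h.rot) {x y : Pt H} (e : (inc H K).perp x y) :
    (inc H K).perp (cjJ h.rot α x) (cjJ h.rot α y) := ((cj_col h α).inc x y).1 e

/-- The rotated point in the ring. -/
theorem rotPt (hC : CoorS.{u}) (hR : RotxS.{u}) (h : Cfg H K a b c) {R : Type u} [CommRing R]
    (D : RD (tri h) R) (t : (tri h).MX) (w : R) (hw : w ∈ D.R0)
    (hw1 : w * (1 + D.jx t * D.jx t) = 1) (γ : (tri h).MZ) (β : (tri h).MY) {z : Pt H}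
    (hz : IsC h z γ.1 β.1) : ∃ γ₀ : (tri h).MZ, ∃ β₀ : (tri h).MY,
      IsC h (cjJ h.rot t.1 z) γ₀.1 β₀.1 ∧
      D.jz γ₀ = (1 - D.jx t * D.jx t) * w * D.jz γ - 2 * D.jx t * w * D.jy β ∧
      D.jy β₀ = 2 * D.jx t * w * D.jz γ + (1 - D.jx t * D.jx t) * w * D.jy β := by
  obtain ⟨γ', β', hz'⟩ := cj_sim hC h t.1 hz
  obtain ⟨r1, r2, r3, r4⟩ := hR G H K a b c h
  obtain ⟨e1, e2⟩ := r4 t.1 z _ _ _ _ hz hz'
  obtain ⟨γ₀, β₀, rfl, rfl, k1, k2⟩ := coordM D hw hw1 (r3 t.1) γ β γ' β' e1 e2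
  exact ⟨γ₀, β₀, hz', k1, k2⟩

theorem rotB0 {R : Type u} [CommRing R] (C S : R) (v : Fin 3 → R) :
    (rotA C S).mulVec v = ![v 0, C * v 1 + S * v 2, -S * v 1 + C * v 2] := by
  funext i
  fin_cases i <;> simp [rotA, Matrix.mulVec, dotProduct, Fin.sum_univ_three]

theorem acta (hC : CoorS.{u}) (hI : IncS.{u}) (hR : RotxS.{u}) : ActaS.{u} := by
  intro G _ H K a b c h hG R _ D t w hw hw1 x v v' hv hv'
  have hg := h.geo
  have hcol := cj_col h t.1
  have hst : (inc H K).st x (cjJ h.rot t.1 x) := hcol.tp x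
  have nab := hg.perp_st _ _ h.pab
  have nbc := hg.perp_st _ _ h.pbc
  have nca := hg.perp_st _ _ h.pca
  have hUn := CCSS D (t := t) hw1
  rcases hv with ⟨γ, β, h1, rfl⟩ | ⟨α, γ, h1, rfl⟩ | ⟨β, α, h1, rfl⟩
  · rcases hv' with ⟨γ', β', h2, rfl⟩ | ⟨α', γ', h2, rfl⟩ | ⟨β', α', h2, rfl⟩
    · obtain ⟨γ₀, β₀, k0, k1, k2⟩ := rotPt hC hR h D t w hw hw1 γ β h1
      obtain ⟨e1, e2⟩ := (hC G H K a b c h).2.2.2.1 _ _ _ _ _ h2 k0
      have e1' : γ' = γ₀ := Subtype.ext e1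
      have e2' : β' = β₀ := Subtype.ext e2
      subst e1' e2'
      refine ⟨1, ?_⟩
      rw [rotB0, k1, k2]
      funext i
      fin_cases i <;> simp
      all_goals ring
    · exact absurd (hg.st_trans _ _ _ (hg.st_trans _ _ _ h1.s hst) (hg.st_symm _ _ h2.s)) nab
    · exact absurd (hg.st_symm _ _ (hg.st_trans _ _ _ (hg.st_trans _ _ _ h1.s hst)
        (hg.st_symm _ _ h2.s))) nca
  · rcases hv' with ⟨γ', β', h2, rfl⟩ | ⟨α', γ', h2, rfl⟩ | ⟨β', α', h2, rfl⟩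
    · exact absurd (hg.st_symm _ _ (hg.st_trans _ _ _ (hg.st_trans _ _ _ h1.s hst)
        (hg.st_symm _ _ h2.s))) nab
    · have key : ∀ β : (tri h).MY, D.jz γ' = ((1 - D.jx t * D.jx t) * w *
          (D.jz γ - D.jx α * D.jy β) - 2 * D.jx t * w * D.jy β) + D.jx α' * (2 * D.jx t * w *
          (D.jz γ - D.jx α * D.jy β) + (1 - D.jx t * D.jx t) * w * D.jy β) := by
        intro β
        obtain ⟨z, hz⟩ := (hC G H K a b c h).2.1 (γ - (tri h).pXY α β : (tri h).MZ).1 β.1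
        obtain ⟨γ₀, β₀, k0, k1, k2⟩ := rotPt hC hR h D t w hw hw1 _ β hz
        have p1 : (inc H K).perp x z := (hI G H K b c a h.rot x z _ _ _ _ h1 hz).2 (by
          change γ.1 = (γ.1 - mulH h α.1 β.1) + mulH h α.1 β.1
          abel)
        have p2 := (hI G H K b c a h.rot _ _ _ _ _ _ h2 k0).1 (cj_perp h t.1 p1)
        have p3 : γ' = γ₀ + (tri h).pXY α' β₀ := Subtype.ext p2
        rw [p3, map_add, ← D.xy, k1, k2, map_sub, ← D.xy]
      have k0 := key 0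
      rw [map_zero] at k0
      have kk := kapB D hG (t := t) hw α α' (fun β => by
        have := key β
        linear_combination k0 - this)
      obtain ⟨e, he1, he2⟩ := theUnit hUn kk
      refine ⟨e, ?_⟩
      rw [rotB0]
      funext i
      fin_cases i
      · change D.jz γ = (e : R) * D.jz γ'
        linear_combination -(e : R) * k0 - D.jz γ * he2
      · change (1 - D.jx t * D.jx t) * w * 1 + 2 * D.jx t * w * (-D.jx α) = (e : R) * 1
        linear_combination -he1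
      · change -(2 * D.jx t * w) * 1 + (1 - D.jx t * D.jx t) * w * (-D.jx α) =
          (e : R) * (-D.jx α')
        linear_combination kk + D.jx α' * he1
    · exact absurd (hg.st_trans _ _ _ (hg.st_trans _ _ _ h1.s hst) (hg.st_symm _ _ h2.s)) nbc
  · rcases hv' with ⟨γ', β', h2, rfl⟩ | ⟨α', γ', h2, rfl⟩ | ⟨β', α', h2, rfl⟩
    · exact absurd (hg.st_trans _ _ _ (hg.st_trans _ _ _ h1.s hst) (hg.st_symm _ _ h2.s)) nca
    · exact absurd (hg.st_symm _ _ (hg.st_trans _ _ _ (hg.st_trans _ _ _ h1.s hst)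
        (hg.st_symm _ _ h2.s))) nbc
    · have key : ∀ γ : (tri h).MZ, 2 * D.jx t * w * D.jz γ + (1 - D.jx t * D.jx t) * w *
          (D.jy β + D.jx α * D.jz γ) = D.jy β' + ((1 - D.jx t * D.jx t) * w * D.jz γ -
          2 * D.jx t * w * (D.jy β + D.jx α * D.jz γ)) * D.jx α' := by
        intro γ
        obtain ⟨z, hz⟩ := (hC G H K a b c h).2.1 γ.1 (β + (tri h).pZX γ α : (tri h).MY).1
        obtain ⟨γ₀, β₀, k0, k1, k2⟩ := rotPt hC hR h D t w hw hw1 γ _ hz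
        have p1 : (inc H K).perp z x := (hI G H K a b c h z x _ _ _ _ hz h1).2 rfl
        have p2 := (hI G H K a b c h _ _ _ _ _ _ k0 h2).1 (cj_perp h t.1 p1)
        have p3 : β₀ = β' + (tri h).pZX γ₀ α' := Subtype.ext p2
        rw [p3, map_add, map_add, ← D.zx, ← D.zx, k1] at k2
        rw [map_add, ← D.zx] at k2
        linear_combination -k2
      have k0 := key 0
      rw [map_zero] at k0
      have kk := kapC D hG (t := t) hw α α' (fun γ => by
        have := key γ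
        linear_combination k0 - this)
      obtain ⟨e, he1, he2⟩ := theUnit hUn kk
      refine ⟨e, ?_⟩
      rw [rotB0]
      funext i
      fin_cases i
      · change -D.jy β = (e : R) * (-D.jy β')
        linear_combination -(e : R) * k0 + D.jy β * he2
      · change (1 - D.jx t * D.jx t) * w * D.jx α + 2 * D.jx t * w * 1 = (e : R) * D.jx α'
        linear_combination -kk - D.jx α' * he1
      · change -(2 * D.jx t * w) * D.jx α + (1 - D.jx t * D.jx t) * w * 1 = (e : R) * 1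
        linear_combination -he1

end Pool.Agent.FourGp.H18
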