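import Pool.Agent.Lib.MP_fb3619_al.Base3

/-!
# ROTX: rotations in coordinates, Cayley formula
-/

universe u

namespace Pool.Agent.FourGp.H18

open Equiv

variable {G : Type u} [Group G] {H K : Subgroup G} {a b c : G}

/-- The coordinate group of the points of type `a`. -/
abbrev EE (h : Cfg H K a b c) : Type u := J h × J h.rot.rot

/-- `f` describes the permutation `σ` on the points of type `a` in coordinates. -/
def Rep (h : Cfg H K a b c) (σ : Perm (Pt H)) (f : AddMonoid.End (EE h)) : Prop :=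
  ∀ z γ β, IsC h z γ β → IsC h (σ z) (f (γ, β)).1 (f (γ, β)).2

section rep

variable {h : Cfg H K a b c} {σ τ : Perm (Pt H)} {f g : AddMonoid.End (EE h)}

theorem rep_unique (hC : CoorS.{u}) (hf : Rep h σ f) (hg : Rep h σ g) : f = g := by
  refine AddMonoidHom.ext fun p => ?_
  obtain ⟨γ, β⟩ := p
  obtain ⟨z, hz⟩ := (hC G H K a b c h).2.1 γ β
  obtain ⟨e1, e2⟩ := (hC G H K a b c h).2.2.2.1 _ _ _ _ _ (hf z γ β hz) (hg z γ β hz)
  exact Prod.ext e1 e2

theorem rep_mul (hf : Rep h σ f) (hg : Rep h τ g) : Rep h (σ * τ) (f * g) :=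
  fun z γ β hz => hf _ _ _ (hg z γ β hz)

theorem rep_one : Rep h (1 : Perm (Pt H)) 1 := fun _ _ _ hz => hz

theorem rep_pow (hf : Rep h σ f) (n : ℕ) : Rep h (σ ^ n) (f ^ n) := by
  induction n with
  | zero => rw [pow_zero, pow_zero]; exact rep_one
  | succ n ih => rw [pow_succ, pow_succ]; exact rep_mul ih hf

end rep

theorem cj_pow (h : Cfg H K a b c) (α : J h) (n : ℕ) (x : Pt H) :
    ((cjJ h α ^ n) x).1 = (α.1 ^ n)⁻¹ * x.1 * α.1 ^ n := by
  induction n generalizing x with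
  | zero => simp
  | succ n ih =>
    rw [pow_succ]
    change ((cjJ h α ^ n) (cjJ h α x)).1 = _
    rw [ih, cjJ_val, pow_succ']
    group

/-- Square roots. -/
theorem exists_sqrt (h : Cfg H K a b c) (s : J h) : ∃ α : J h, α.1 * α.1 = s.1 := by
  obtain ⟨n, hn⟩ := h.odd s.1 s.memK
  refine ⟨⟨s.1 ^ (n + 1), (K0 H K).pow_mem s.2.1 _, ?_⟩, ?_⟩
  · exact (show Commute s.1 c from s.2.2).pow_left _
  · change s.1 ^ (n + 1) * s.1 ^ (n + 1) = s.1
    rw [← pow_add, show n + 1 + (n + 1) = (2 * n + 1) + 1 by ring, pow_succ, hn, one_mul]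

/-- The operator `j_s (γ, β) = (-s β, γ s)`. -/
noncomputable def jmap (h : Cfg H K a b c) (s : J h.rot) : AddMonoid.End (EE h) :=
  AddMonoidHom.mk' (fun p => (-(mulH h s p.2), mulH h.rot.rot p.1 s)) (by
    intro p q
    refine Prod.ext ?_ ?_
    · change -(mulH h s (p.2 + q.2)) = -(mulH h s p.2) + -(mulH h s q.2)
      rw [map_add, neg_add]
    · change mulH h.rot.rot (p.1 + q.1) s = mulH h.rot.rot p.1 s + mulH h.rot.rot q.1 s
      rw [map_add, AddMonoidHom.add_apply])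

theorem jmap_apply (h : Cfg H K a b c) (s : J h.rot) (γ : J h) (β : J h.rot.rot) :
    jmap h s (γ, β) = (-(mulH h s β), mulH h.rot.rot γ s) := rfl

/-- `ε (γ, β) = (-γ, β)`. -/
noncomputable def eps (h : Cfg H K a b c) : AddMonoid.End (EE h) :=
  AddMonoidHom.mk' (fun p => (-p.1, p.2)) (by
    intro p q
    refine Prod.ext ?_ rfl
    exact neg_add _ _)

theorem eps_apply (h : Cfg H K a b c) (γ : J h) (β : J h.rot.rot) :
    eps h (γ, β) = (-γ, β) := rfl

theorem eps_eps (h : Cfg H K a b c) : eps h * eps h = 1 := by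
  refine AddMonoidHom.ext fun p => ?_
  obtain ⟨γ, β⟩ := p
  change eps h (eps h (γ, β)) = (γ, β)
  rw [eps_apply, eps_apply, neg_neg]

theorem eps_jmap (h : Cfg H K a b c) (s : J h.rot) : eps h * jmap h s * eps h = -jmap h s := by
  refine AddMonoidHom.ext fun p => ?_
  obtain ⟨γ, β⟩ := p
  change eps h (jmap h s (eps h (γ, β))) = -(jmap h s (γ, β))
  rw [eps_apply, jmap_apply, jmap_apply, eps_apply, map_neg, AddMonoidHom.neg_apply]
  rfl

/-- The diagonal part. -/
noncomputable def dia (h : Cfg H K a b c) (f : AddMonoid.End (EE h)) : AddMonoid.End (EE h) :=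
  AddMonoidHom.mk' (fun p => ((f (p.1, 0)).1, (f (0, p.2)).2)) (by
    intro p q
    refine Prod.ext ?_ ?_
    · change (f (p.1 + q.1, 0)).1 = (f (p.1, 0)).1 + (f (q.1, 0)).1
      have e : ((p.1 + q.1, 0) : EE h) = (p.1, 0) + (q.1, 0) := by rw [Prod.mk_add_mk, add_zero]
      rw [e, map_add]
      rfl
    · change (f (0, p.2 + q.2)).2 = (f (0, p.2)).2 + (f (0, q.2)).2
      have e : ((0, p.2 + q.2) : EE h) = (0, p.2) + (0, q.2) := by rw [Prod.mk_add_mk, add_zero]
      rw [e, map_add]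
      rfl)

theorem dia_apply (h : Cfg H K a b c) (f : AddMonoid.End (EE h)) (γ : J h) (β : J h.rot.rot) :
    dia h f (γ, β) = ((f (γ, 0)).1, (f (0, β)).2) := rfl

theorem eps_dia (h : Cfg H K a b c) (f : AddMonoid.End (EE h)) :
    eps h * dia h f * eps h = dia h f := by
  refine AddMonoidHom.ext fun p => ?_
  obtain ⟨γ, β⟩ := p
  change eps h (dia h f (eps h (γ, β))) = dia h f (γ, β)
  rw [eps_apply, dia_apply, dia_apply, eps_apply]
  have : f (-γ, 0) = -f (γ, 0) := by rw [← map_neg, Prod.neg_mk, neg_zero]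
  rw [this, Prod.fst_neg, neg_neg]

theorem no2 (h : Cfg H K a b c) (f : AddMonoid.End (EE h)) (hf : f + f = 0) : f = 0 := by
  refine AddMonoidHom.ext fun p => ?_
  have h1 : f p + f p = 0 := by
    have := congrArg (fun g : AddMonoid.End (EE h) => g p) hf
    exact this
  refine Prod.ext ?_ ?_
  · exact (part2_neg G H K a b c h).2 _ (congrArg Prod.fst h1)
  · exact (part2_neg G H K c a b h.rot.rot).2 _ (congrArg Prod.snd h1)

section rot

variable (h : Cfg H K a b c) (hC : CoorS.{u}) (hI : IncS.{u})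

theorem cj_col' (α : J h.rot) : (inc H K).Col (cjJ h.rot α, cjJ h.rot α) :=
  part1_cjc G H K a b c h ⟨α.1, α.memH⟩

/-- `c ^ α = c α²`. -/
theorem cj_pc (α s : J h.rot) (hs : s.1 = α.1 * α.1) : cjJ h.rot α h.pc = J.bp h.rot s := by
  apply Subtype.ext
  rw [cjJ_val]
  change α.1⁻¹ * c * α.1 = c * s.1
  have h1 := h.rot.mul_b α.memK α.2.2
  have h2 : α.1⁻¹ * c = c * α.1 := by
    calc α.1⁻¹ * c = α.1⁻¹ * (c * α.1⁻¹) * α.1 := by group
      _ = α.1⁻¹ * (α.1 * c) * α.1 := by rw [h1]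
      _ = c * α.1 := by group
  rw [h2, hs, mul_assoc]

/-- `b ^ α = b α²`. -/
theorem cj_pb (α s : J h.rot) (hs : s.1 = α.1 * α.1) : cjJ h.rot α h.pb = J.ap h.rot s := by
  apply Subtype.ext
  rw [cjJ_val]
  change α.1⁻¹ * b * α.1 = b * s.1
  have h1 := h.rot.mul_a α.memK α.2.2
  have h2 : α.1⁻¹ * b = b * α.1 := by
    calc α.1⁻¹ * b = α.1⁻¹ * (b * α.1⁻¹) * α.1 := by group
      _ = α.1⁻¹ * (α.1 * b) * α.1 := by rw [h1]
      _ = b * α.1 := by group
  rw [h2, hs, mul_assoc]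

include hC hI in
theorem rot_i (α s : J h.rot) (hs : s.1 = α.1 * α.1) {f : AddMonoid.End (EE h)}
    (hf : Rep h (cjJ h.rot α) f) (γ : J h) :
    (f (γ, 0)).2 = mulH h.rot.rot (f (γ, 0)).1 s := by
  have h1 := (hC G H K a b c h).2.2.2.2.2.1 γ
  have h2 := hf _ _ _ h1
  have h3 := (hC G H K c a b h.rot.rot).2.2.2.2.2.2 s
  have h4 := ((cj_col' h α).inc _ _).1 (J.perp_ac h γ)
  change (inc H K).perp (cjJ h.rot α (J.ap h γ)) (cjJ h.rot α h.pc) at h4
  rw [cj_pc h α s hs] at h4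
  have h5 := (hI G H K a b c h _ _ _ _ _ _ h2 h3).1 h4
  rw [zero_add] at h5
  exact h5

include hC hI in
theorem rot_ii (α s : J h.rot) (hs : s.1 = α.1 * α.1) {f : AddMonoid.End (EE h)}
    (hf : Rep h (cjJ h.rot α) f) (β : J h.rot.rot) :
    (f (0, β)).1 = -(mulH h s (f (0, β)).2) := by
  have h1 := (hC G H K a b c h).2.2.2.2.2.2 β
  have h2 := hf _ _ _ h1
  have h3 := (hC G H K b c a h.rot).2.2.2.2.2.1 s
  have h4 := ((cj_col' h α).inc _ _).1 (h.geo.perp_symm _ _ (J.perp_bc h.rot.rot β))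
  change (inc H K).perp (cjJ h.rot α h.pb) (cjJ h.rot α (J.bp h.rot.rot β)) at h4
  rw [cj_pb h α s hs] at h4
  have h5 := (hI G H K b c a h.rot _ _ _ _ _ _ h3 h2).1 h4
  exact eq_neg_of_add_eq_zero_left h5.symm

include hC hI in
theorem rot_fac (α s : J h.rot) (hs : s.1 = α.1 * α.1) {f : AddMonoid.End (EE h)}
    (hf : Rep h (cjJ h.rot α) f) : f = (1 + jmap h s) * dia h f := by
  refine AddMonoidHom.ext fun p => ?_
  obtain ⟨γ, β⟩ := p
  change f (γ, β) = dia h f (γ, β) + jmap h s (dia h f (γ, β))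
  rw [dia_apply, jmap_apply]
  have e : f (γ, β) = f (γ, 0) + f (0, β) := by
    rw [← map_add, Prod.mk_add_mk, add_zero, zero_add]
  rw [e]
  refine Prod.ext ?_ ?_
  · change (f (γ, 0)).1 + (f (0, β)).1 = (f (γ, 0)).1 + -(mulH h s (f (0, β)).2)
    rw [← rot_ii h hC hI α s hs hf]
  · change (f (γ, 0)).2 + (f (0, β)).2 = (f (0, β)).2 + mulH h.rot.rot (f (γ, 0)).1 s
    rw [← rot_i h hC hI α s hs hf, add_comm]

/-- Conjugation by `b`. -/
def cb : Perm (Pt H) := cj H ⟨b, h.hb⟩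

theorem cb_val (x : Pt H) : (cb h x).1 = b⁻¹ * x.1 * b := rfl

theorem rep_cb : Rep h (cb h) (eps h) := by
  intro z γ β hz
  have hcol : (inc H K).Col (cb h, cb h) := part1_cjc G H K a b c h ⟨b, h.hb⟩
  have hb' : b⁻¹ = b := inv_eq_of_mul_eq_one_right h.hbb
  refine ⟨h.geo.st_trans _ _ _ hz.s (hcol.tp z), ?_, ?_⟩
  · have h1 := (hcol.inc _ _).1 hz.p
    have h2 : cb h (J.bp h γ) = J.bp h (-γ) := by
      apply Subtype.ext
      rw [cb_val, J.bp_val, J.bp_val, (part2_neg G H K a b c h).1 γ, ← h.mul_b γ.memK γ.2.2]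
      group
    change (inc H K).perp (cb h z) (J.bp h (-γ))
    rw [← h2]
    exact h1
  · have h1 := (hcol.inc _ _).1 hz.q
    have h2 : cb h (J.ap h.rot.rot β) = J.ap h.rot.rot β := by
      apply Subtype.ext
      rw [cb_val, J.ap_val, hb']
      have e1 : β.1 * b = b * β.1 := β.2.2
      calc b * (c * β.1) * b = b * c * (β.1 * b) := by group
        _ = a * (b * β.1) := by rw [h.bc, e1]
        _ = a * b * β.1 := by group
        _ = c * β.1 := by rw [h.ab]
    change (inc H K).perp (cb h z) (J.ap h.rot.rot β)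
    rw [← h2]
    exact h1

theorem cb_cb : cb h * cb h = 1 := by
  refine Equiv.ext fun x => Subtype.ext ?_
  change (cb h (cb h x)).1 = x.1
  rw [cb_val, cb_val]
  calc b⁻¹ * (b⁻¹ * x.1 * b) * b = (b * b)⁻¹ * x.1 * (b * b) := by group
    _ = x.1 := by rw [h.hbb]; group

theorem cb_cj (α : J h.rot) : cb h * cjJ h.rot α * cb h = cjJ h.rot (J.jinv h.rot α) := by
  refine Equiv.ext fun x => Subtype.ext ?_
  change (cb h (cjJ h.rot α (cb h x))).1 = _
  rw [cb_val, cjJ_val, cb_val, cjJ_val, J.jinv_val]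
  have hb' : b⁻¹ = b := inv_eq_of_mul_eq_one_right h.hbb
  have h1 := h.rot.inv_a α.memK α.2.2
  have h2 : b * α.1⁻¹ * b = α.1 := by
    rw [← h1]
    calc b * (b * α.1 * b) * b = (b * b) * α.1 * (b * b) := by group
      _ = α.1 := by rw [h.hbb]; group
  rw [hb', inv_inv]
  calc b * (α.1⁻¹ * (b * x.1 * b) * α.1) * b = (b * α.1⁻¹ * b) * x.1 * (b * α.1 * b) := by group
    _ = α.1 * x.1 * α.1⁻¹ := by rw [h1, h2]

include hC hI in
theorem rot_inv (α s : J h.rot) (hs : s.1 = α.1 * α.1) {f : AddMonoid.End (EE h)}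
    (hf : Rep h (cjJ h.rot α) f) :
    Rep h (cjJ h.rot (J.jinv h.rot α)) ((1 - jmap h s) * dia h f) := by
  have h1 := rep_mul (rep_mul (rep_cb h) hf) (rep_cb h)
  rw [cb_cj] at h1
  have h2 : eps h * f * eps h = (1 - jmap h s) * dia h f := by
    calc eps h * f * eps h = eps h * ((1 + jmap h s) * dia h f) * eps h := by
          rw [← rot_fac h hC hI α s hs hf]
      _ = eps h * (1 + jmap h s) * (eps h * eps h) * dia h f * eps h := by
          rw [eps_eps]; noncomm_ring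
      _ = (eps h * eps h + eps h * jmap h s * eps h) * (eps h * dia h f * eps h) := by
          noncomm_ring
      _ = (1 - jmap h s) * dia h f := by
          rw [eps_eps, eps_jmap, eps_dia, sub_eq_add_neg]
  rwa [h2] at h1

theorem cj_inv_mul (α : J h.rot) : cjJ h.rot α * cjJ h.rot (J.jinv h.rot α) = 1 := by
  refine Equiv.ext fun x => Subtype.ext ?_
  change (cjJ h.rot α (cjJ h.rot (J.jinv h.rot α) x)).1 = x.1
  rw [cjJ_val, cjJ_val, J.jinv_val]
  group

theorem cj_mul_inv (α : J h.rot) : cjJ h.rot (J.jinv h.rot α) * cjJ h.rot α = 1 := by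
  refine Equiv.ext fun x => Subtype.ext ?_
  change (cjJ h.rot (J.jinv h.rot α) (cjJ h.rot α x)).1 = x.1
  rw [cjJ_val, cjJ_val, J.jinv_val]
  group

/-- Everything `OPS` needs. -/
structure Data (h : Cfg H K a b c) (α s : J h.rot) (f : AddMonoid.End (EE h)) : Prop where
  rep : Rep h (cjJ h.rot α) f
  fac : f = (1 + jmap h s) * dia h f
  i1 : f * ((1 - jmap h s) * dia h f) = 1
  i2 : ((1 - jmap h s) * dia h f) * f = 1
  odd : ∃ n : ℕ, f ^ (2 * n + 1) = 1

include hC hI in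
theorem exists_data (hR : RotaS.{u}) (α s : J h.rot) (hs : s.1 = α.1 * α.1) :
    ∃ f, Data h α s f := by
  obtain ⟨f, hf⟩ := hR G H K a b c h α
  have hf' : Rep h (cjJ h.rot α) f := hf
  have h1 := rot_inv h hC hI α s hs hf'
  refine ⟨f, hf', rot_fac h hC hI α s hs hf', ?_, ?_, ?_⟩
  · have h2 := rep_mul hf' h1
    rw [cj_inv_mul h α] at h2
    exact rep_unique hC h2 rep_one
  · have h2 := rep_mul h1 hf'
    rw [cj_mul_inv h α] at h2
    exact rep_unique hC h2 rep_one
  · obtain ⟨n, hn⟩ := h.odd α.1 α.memK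
    refine ⟨n, rep_unique hC (rep_pow hf' (2 * n + 1)) ?_⟩
    have h3 : cjJ h.rot α ^ (2 * n + 1) = 1 := by
      refine Equiv.ext fun x => Subtype.ext ?_
      rw [cj_pow, hn]
      simp
    rw [h3]
    exact rep_one

include hC in
theorem comm (α α' s s' : J h.rot) {f f' : AddMonoid.End (EE h)} (hf : Data h α s f)
    (hf' : Data h α' s' f') : f * f' = f' * f := by
  refine rep_unique hC (rep_mul hf.rep hf'.rep) ?_
  have e : cjJ h.rot α * cjJ h.rot α' = cjJ h.rot α' * cjJ h.rot α := by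
    have h1 := h.rot.inv_a α.memK α.2.2
    have h2 := h.rot.inv_a α'.memK α'.2.2
    have h3 := h.rot.inv_a (γ := α.1 * α'.1) (K.mul_mem α.memK α'.memK)
      (Commute.mul_left (show Commute α.1 a from α.2.2) (show Commute α'.1 a from α'.2.2))
    have h4 : α.1⁻¹ * α'.1⁻¹ = (α.1 * α'.1)⁻¹ := by
      rw [← h1, ← h2, ← h3]
      calc b * α.1 * b * (b * α'.1 * b) = b * α.1 * (b * b) * α'.1 * b := by group
        _ = b * (α.1 * α'.1) * b := by rw [h.hbb]; group
    have h5 : α'.1 * α.1 = α.1 * α'.1 := by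
      have := congrArg (fun x => x⁻¹) h4
      simpa using this
    refine Equiv.ext fun x => Subtype.ext ?_
    change (cjJ h.rot α (cjJ h.rot α' x)).1 = (cjJ h.rot α' (cjJ h.rot α x)).1
    rw [cjJ_val, cjJ_val, cjJ_val, cjJ_val]
    calc α.1⁻¹ * (α'.1⁻¹ * x.1 * α'.1) * α.1 = (α'.1 * α.1)⁻¹ * x.1 * (α'.1 * α.1) := by group
      _ = (α.1 * α'.1)⁻¹ * x.1 * (α.1 * α'.1) := by rw [h5]
      _ = α'.1⁻¹ * (α.1⁻¹ * x.1 * α.1) * α'.1 := by group
  rw [e]
  exact rep_mul hf'.rep hf.rep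

end rot

theorem rotx (hC : CoorS.{u}) (hI : IncS.{u}) (hR : RotaS.{u}) : RotxS.{u} := by
  intro G _ H K a b c h
  have hex : ∀ s : J h.rot, ∃ α f, Data h α s f := by
    intro s
    obtain ⟨α, hα⟩ := exists_sqrt h.rot s
    obtain ⟨f, hf⟩ := exists_data h hC hI hR α s hα.symm
    exact ⟨α, f, hf⟩
  have hjj : ∀ s s' : J h.rot, jmap h s * jmap h s' = jmap h s' * jmap h s := by
    intro s s'
    obtain ⟨α, f, hf⟩ := hex s
    obtain ⟨α', f', hf'⟩ := hex s'
    obtain ⟨n, hn⟩ := hf.odd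
    obtain ⟨n', hn'⟩ := hf'.odd
    exact part1_opsb (AddMonoid.End (EE h)) (no2 h) f (dia h f) (jmap h s) f' (dia h f') (jmap h s')
      n n' hf.fac hf.i1 hf.i2 hn hf'.fac hf'.i1 hf'.i2 hn' (comm h hC α α' s s' hf hf')
  refine ⟨?_, ?_, ?_, ?_⟩
  · intro s s' β
    have h1 := congrArg (fun g : AddMonoid.End (EE h) => (g (0, β)).2) (hjj s s')
    change (jmap h s (jmap h s' (0, β))).2 = (jmap h s' (jmap h s (0, β))).2 at h1
    rw [jmap_apply, jmap_apply, jmap_apply, jmap_apply] at h1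
    change mulH h.rot.rot (-(mulH h s' β)) s = mulH h.rot.rot (-(mulH h s β)) s' at h1
    rw [map_neg, map_neg, AddMonoidHom.neg_apply, AddMonoidHom.neg_apply] at h1
    exact neg_injective h1
  · intro s s' γ
    have h1 := congrArg (fun g : AddMonoid.End (EE h) => (g (γ, 0)).1) (hjj s s')
    change (jmap h s (jmap h s' (γ, 0))).1 = (jmap h s' (jmap h s (γ, 0))).1 at h1
    rw [jmap_apply, jmap_apply, jmap_apply, jmap_apply] at h1
    exact neg_injective h1
  · intro s
    obtain ⟨α, f, hf⟩ := hex s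
    obtain ⟨n, hn⟩ := hf.odd
    obtain ⟨-, -, -, ⟨v, hv1, hv2⟩, -⟩ := part1_ops (AddMonoid.End (EE h)) (no2 h) f (dia h f)
      (jmap h s) n hf.fac hf.i1 hf.i2 hn
    have key : ∀ (γ : J h) (β : J h.rot.rot), (1 - jmap h s * jmap h s) (γ, β) =
        (γ + mulH h s (mulH h.rot.rot γ s), β + mulH h.rot.rot (mulH h s β) s) := by
      intro γ β
      change (γ, β) - jmap h s (jmap h s (γ, β)) = _
      rw [jmap_apply, jmap_apply, map_neg, AddMonoidHom.neg_apply, sub_eq_add_neg, Prod.neg_mk,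
        neg_neg, neg_neg]
      rfl
    have i1 : ∀ p, v ((1 - jmap h s * jmap h s) p) = p := fun p => by
      have := congrArg (fun g : AddMonoid.End (EE h) => g p) hv1
      exact this
    have i2 : ∀ p, (1 - jmap h s * jmap h s) (v p) = p := fun p => by
      have := congrArg (fun g : AddMonoid.End (EE h) => g p) hv2
      exact this
    refine ⟨⟨?_, ?_⟩, ⟨?_, ?_⟩⟩
    · intro β β' e
      have e' : β + mulH h.rot.rot (mulH h s β) s = β' + mulH h.rot.rot (mulH h s β') s := e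
      have h1 : (1 - jmap h s * jmap h s) (0, β) = (1 - jmap h s * jmap h s) (0, β') := by
        rw [key, key, e']
      have h2 := congrArg v h1
      rw [i1, i1] at h2
      exact congrArg Prod.snd h2
    · intro β
      refine ⟨(v (0, β)).2, ?_⟩
      have h1 := i2 (0, β)
      have h2 := key (v (0, β)).1 (v (0, β)).2
      exact congrArg Prod.snd (h2.symm.trans h1)
    · intro γ γ' e
      have e' : γ + mulH h s (mulH h.rot.rot γ s) = γ' + mulH h s (mulH h.rot.rot γ' s) := e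
      have h1 : (1 - jmap h s * jmap h s) (γ, 0) = (1 - jmap h s * jmap h s) (γ', 0) := by
        rw [key, key, e']
      have h2 := congrArg v h1
      rw [i1, i1] at h2
      exact congrArg Prod.fst h2
    · intro γ
      refine ⟨(v (γ, 0)).1, ?_⟩
      have h1 := i2 (γ, 0)
      have h2 := key (v (γ, 0)).1 (v (γ, 0)).2
      exact congrArg Prod.fst (h2.symm.trans h1)
  · intro t z γ β γ' β' hz hz'
    obtain ⟨α, hα⟩ := exists_sqrt h.rot t
    obtain ⟨f, hf⟩ := exists_data h hC hI hR α t hα.symm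
    obtain ⟨n, hn⟩ := hf.odd
    obtain ⟨h1, -, -, -, h2⟩ := part1_ops (AddMonoid.End (EE h)) (no2 h) f (dia h f)
      (jmap h t) n hf.fac hf.i1 hf.i2 hn
    have hfj : f * jmap h t = jmap h t * f := by
      rw [hf.fac]
      calc (1 + jmap h t) * dia h f * jmap h t = (1 + jmap h t) * (dia h f * jmap h t) := by
            noncomm_ring
        _ = (1 + jmap h t) * (jmap h t * dia h f) := by rw [h1]
        _ = jmap h t * ((1 + jmap h t) * dia h f) := by noncomm_ring
    have hcj : Commute f (jmap h t) := hfj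
    have h3 : (1 - jmap h t) * (f * f) = 1 + jmap h t :=
      (((Commute.one_right (f * f)).sub_right (hcj.mul_left hcj)).eq.symm).trans h2
    have hff := rep_mul hf.rep hf.rep
    have e : cjJ h.rot α * cjJ h.rot α = cjJ h.rot t := by
      refine Equiv.ext fun x => Subtype.ext ?_
      change (cjJ h.rot α (cjJ h.rot α x)).1 = _
      rw [cjJ_val, cjJ_val, cjJ_val, ← hα]
      group
    rw [e] at hff
    obtain ⟨e1, e2⟩ := (hC G H K a b c h).2.2.2.1 _ _ _ _ _ hz' (hff _ _ _ hz)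
    have h4 := congrArg (fun g : AddMonoid.End (EE h) => g (γ, β)) h3
    change (f * f) (γ, β) - jmap h t ((f * f) (γ, β)) = (γ, β) + jmap h t (γ, β) at h4
    have h5 : (f * f) (γ, β) = (γ', β') := Prod.ext e1.symm e2.symm
    rw [h5, jmap_apply, jmap_apply] at h4
    have h6 := congrArg Prod.fst h4
    have h7 := congrArg Prod.snd h4
    change γ' - -(mulH h t β') = γ + -(mulH h t β) at h6
    change β' - mulH h.rot.rot γ' t = β + mulH h.rot.rot γ t at h7
    refine ⟨?_, h7⟩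
    rw [sub_neg_eq_add, ← sub_eq_add_neg] at h6
    exact h6

end Pool.Agent.FourGp.H18
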